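import Mathlib
import Pool.Agent.Q176.SetTietze

namespace Pool.Agent.Results.MP_231ef3_gt.PlankNotSetSelf

open Set Filter Topology Q176.SetTietze Ordinal

/-- The Tychonoff plank `[0, ω₁] × [0, ω]`. -/
abbrev Plank : Type 1 := Set.Iic (ω₁ : Ordinal.{0}) × Set.Iic (ω : Ordinal.{0})

lemma omega0_le : (ω : Ordinal.{0}) ≤ ω₁ := omega0_lt_omega_one.le

/-- The right edge points. -/
noncomputable def rpt (n : ℕ) : Plank := (⟨ω₁, mem_Iic.mpr le_rfl⟩, ⟨n, mem_Iic.mpr (natCast_lt_omega0 n).le⟩)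

/-- The top edge points. -/
noncomputable def tpt (a : Ordinal.{0}) (ha : a < ω₁) : Plank := (⟨a, mem_Iic.mpr ha.le⟩, ⟨ω, mem_Iic.mpr le_rfl⟩)

lemma right_nhds (U : Set Plank) (hU : IsOpen U) (n : ℕ) (h : rpt n ∈ U) :
    ∃ a : Ordinal.{0}, a < ω₁ ∧ ∀ b (hb : b < ω₁), a < b →
      ((⟨b, mem_Iic.mpr hb.le⟩, ⟨n, mem_Iic.mpr (natCast_lt_omega0 n).le⟩) : Plank) ∈ U := by
  have hV : IsOpen {x : Set.Iic (ω₁ : Ordinal.{0}) |
      ((x, ⟨n, mem_Iic.mpr (natCast_lt_omega0 n).le⟩) : Plank) ∈ U} := hU.preimage (by fun_prop)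
  have hm : (⟨ω₁, mem_Iic.mpr le_rfl⟩ : Set.Iic (ω₁ : Ordinal.{0})) ∈
      {x : Set.Iic (ω₁ : Ordinal.{0}) |
      ((x, ⟨n, mem_Iic.mpr (natCast_lt_omega0 n).le⟩) : Plank) ∈ U} := h
  have hn := hV.mem_nhds hm
  have hlt : (⟨0, mem_Iic.mpr zero_le⟩ : Set.Iic (ω₁ : Ordinal.{0})) < ⟨ω₁, mem_Iic.mpr le_rfl⟩ := by
    show (0 : Ordinal.{0}) < ω₁
    exact omega0_pos.trans_le omega0_le
  obtain ⟨l, hl, hsub⟩ := exists_Ioc_subset_of_mem_nhds hn ⟨_, hlt⟩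
  refine ⟨l.1, hl, fun b hb hab => ?_⟩
  exact hsub ⟨hab, hb.le⟩

lemma top_nhds (V : Set Plank) (hV : IsOpen V) (a : Ordinal.{0}) (ha : a < ω₁) (h : tpt a ha ∈ V) :
    ∃ n : ℕ, ((⟨a, mem_Iic.mpr ha.le⟩, ⟨n, mem_Iic.mpr (natCast_lt_omega0 n).le⟩) : Plank) ∈ V := by
  have hW : IsOpen {x : Set.Iic (ω : Ordinal.{0}) | ((⟨a, mem_Iic.mpr ha.le⟩, x) : Plank) ∈ V} :=
    hV.preimage (by fun_prop)
  have hm : (⟨ω, mem_Iic.mpr le_rfl⟩ : Set.Iic (ω : Ordinal.{0})) ∈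
      {x : Set.Iic (ω : Ordinal.{0}) | ((⟨a, mem_Iic.mpr ha.le⟩, x) : Plank) ∈ V} := h
  have hn := hW.mem_nhds hm
  have hlt : (⟨0, mem_Iic.mpr zero_le⟩ : Set.Iic (ω : Ordinal.{0})) < ⟨ω, mem_Iic.mpr le_rfl⟩ :=
    omega0_pos
  obtain ⟨l, hl, hsub⟩ := exists_Ioc_subset_of_mem_nhds hn ⟨_, hlt⟩
  obtain ⟨k, hk⟩ := lt_omega0.mp (show l.1 < ω from hl)
  refine ⟨k + 1, ?_⟩
  refine hsub ⟨?_, (natCast_lt_omega0 (k + 1)).le⟩
  show l.1 < ((k + 1 : ℕ) : Ordinal.{0})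
  rw [hk]
  exact_mod_cast Nat.lt_succ_self k

theorem not_cn : ¬ CompletelyNormalSpace Plank := by
  intro hX
  let S : Set Plank := range rpt
  let T : Set Plank := {x | ∃ a, ∃ ha : a < ω₁, x = tpt a ha}
  have hS : closure S ⊆ {x | x.1.1 = ω₁} := by
    apply closure_minimal
    · rintro _ ⟨n, rfl⟩
      rfl
    · exact isClosed_eq (by fun_prop) continuous_const
  have hT : closure T ⊆ {x | x.2.1 = ω} := by
    apply closure_minimal
    · rintro _ ⟨a, ha, rfl⟩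
      rfl
    · exact isClosed_eq (by fun_prop) continuous_const
  have hST : Disjoint (closure S) T := by
    rw [Set.disjoint_left]
    rintro _ hx ⟨a, ha, rfl⟩
    have : a = ω₁ := hS hx
    exact ha.ne this
  have hST' : Disjoint S (closure T) := by
    rw [Set.disjoint_left]
    rintro _ ⟨n, rfl⟩ hx
    have : (n : Ordinal.{0}) = ω := hT hx
    exact (natCast_lt_omega0 n).ne this
  have hd := hX.completely_normal hST hST'
  rw [separatedNhds_iff_disjoint.symm] at hd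
  obtain ⟨U, V, hU, hV, hSU, hTV, hUV⟩ := hd
  have key := fun n : ℕ => right_nhds U hU n (hSU ⟨n, rfl⟩)
  choose a ha1 ha2 using key
  have hsup : (⨆ n, a n) < ω₁ := Ordinal.iSup_lt_omega_one ha1
  set b : Ordinal.{0} := Order.succ (⨆ n, a n) with hb
  have hb1 : b < ω₁ := (Cardinal.isSuccLimit_omega 1).succ_lt hsup
  obtain ⟨n, hn⟩ := top_nhds V hV b hb1 (hTV ⟨b, hb1, rfl⟩)
  have hlt : a n < b := lt_of_le_of_lt (Ordinal.le_iSup a n) (Order.lt_succ _)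
  exact disjoint_left.mp hUV (ha2 n b hb1 hlt) hn

/-- The Tychonoff plank is not set-self-Tietze. -/
theorem result : ¬ SetSelfTietze Plank := fun h => not_cn (completelyNormal Plank h)

end Pool.Agent.Results.MP_231ef3_gt.PlankNotSetSelf
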